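import Mathlib

set_option autoImplicit false
open Filter Topology

namespace Pool.Agent.Results.MP_e69049_lc.PPoint

/-- The Hilbert space of square summable sequences. -/
noncomputable abbrev E := lp (fun _ : ℕ => ℂ) 2

/-- The standard basis vectors. -/
noncomputable def e (i : ℕ) : E := lp.single 2 i (1 : ℂ)

lemma e_apply (i j : ℕ) : (e i) j = if j = i then (1 : ℂ) else 0 := by
  unfold e
  rw [lp.single_apply]
  by_cases h : j = i
  · subst h; simp
  · simp [h]

lemma norm_e (i : ℕ) : ‖e i‖ = 1 := by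
  unfold e
  rw [lp.norm_single (by norm_num)]
  simp

lemma inner_e (i : ℕ) (x : E) : inner ℂ (e i) x = x i := by
  unfold e
  rw [lp.inner_single_left]
  simp

lemma orthonormal_e (f : ℕ → ℕ) (hf : Function.Injective f) :
    Orthonormal ℂ (fun i => e (f i)) := by
  rw [orthonormal_iff_ite]
  intro i j
  rw [inner_e, e_apply]
  by_cases h : i = j
  · subst h; simp
  · have : f i ≠ f j := fun h' => h (hf h')
    simp [h, this]

/-- The isometry sending the `i`-th basis vector to the `f i`-th one. -/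
noncomputable def V (f : ℕ → ℕ) (hf : Function.Injective f) : E →ₗᵢ[ℂ] E :=
  (orthonormal_e f hf).orthogonalFamily.linearIsometry

lemma V_e (f : ℕ → ℕ) (hf : Function.Injective f) (i : ℕ) : V f hf (e i) = e (f i) := by
  unfold V
  rw [e, OrthogonalFamily.linearIsometry_apply_single]
  simp

/-- The same as a bounded operator. -/
noncomputable def W (f : ℕ → ℕ) (hf : Function.Injective f) : E →L[ℂ] E :=
  (V f hf).toContinuousLinearMap

lemma W_e (f : ℕ → ℕ) (hf : Function.Injective f) (i : ℕ) : W f hf (e i) = e (f i) := V_e f hf i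

lemma norm_W_apply (f : ℕ → ℕ) (hf : Function.Injective f) (x : E) : ‖W f hf x‖ = ‖x‖ :=
  (V f hf).norm_map x

lemma norm_W_le (f : ℕ → ℕ) (hf : Function.Injective f) : ‖W f hf‖ ≤ 1 :=
  ContinuousLinearMap.opNorm_le_bound _ zero_le_one (fun x => by rw [norm_W_apply, one_mul])

lemma hasSum_e (x : E) : HasSum (fun i => (x i) • e i) x := by
  have h := lp.hasSum_single (p := 2) (E := fun _ : ℕ => ℂ) (by norm_num) x
  convert h using 2 with i
  unfold e
  rw [← lp.single_smul]
  simp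

lemma ext_e (S T : E →L[ℂ] E) (h : ∀ i, S (e i) = T (e i)) : S = T := by
  ext1 x
  have h1 := (hasSum_e x).mapL S
  have h2 := (hasSum_e x).mapL T
  simp only [map_smul, h] at h1 h2
  exact h1.unique h2

lemma W_comp (f g : ℕ → ℕ) (hf : Function.Injective f) (hg : Function.Injective g) :
    W f hf * W g hg = W (f ∘ g) (hf.comp hg) := by
  apply ext_e
  intro i
  rw [mul_apply_eq_comp, W_e, W_e, W_e]
  rfl

lemma adj_W_apply (f : ℕ → ℕ) (hf : Function.Injective f) (y : E) (i : ℕ) :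
    (ContinuousLinearMap.adjoint (W f hf) y) i = y (f i) := by
  rw [← inner_e, ContinuousLinearMap.adjoint_inner_right, W_e, inner_e]

lemma adj_W_W (f : ℕ → ℕ) (hf : Function.Injective f) :
    ContinuousLinearMap.adjoint (W f hf) * W f hf = 1 := by
  apply ext_e
  intro i
  rw [mul_apply_eq_comp, W_e]
  ext j
  rw [adj_W_apply, one_apply_eq_self, e_apply, e_apply]
  by_cases h : j = i
  · subst h; simp
  · have : f j ≠ f i := fun h' => h (hf h')
    simp [h, this]

/-- The shift by `j`. -/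
noncomputable def Sh (j : ℕ) : E →L[ℂ] E := W (fun i => i + j) (add_left_injective j)

lemma Sh_e (j i : ℕ) : Sh j (e i) = e (i + j) := W_e _ _ i

lemma Sh_zero : Sh 0 = 1 := by
  apply ext_e
  intro i
  rw [Sh_e, one_apply_eq_self]
  simp

lemma Sh_add (j k : ℕ) : Sh (j + k) = Sh j * Sh k := by
  apply ext_e
  intro i
  rw [mul_apply_eq_comp, Sh_e, Sh_e, Sh_e]
  congr 1
  omega

lemma norm_Sh_le (j : ℕ) : ‖Sh j‖ ≤ 1 := norm_W_le _ _

/-- The decreasing functions measuring the size of `T` on tails. -/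
noncomputable def phi (T : E →L[ℂ] E) (j : ℕ) : ℝ := ‖T * Sh j‖

lemma phi_zero (T : E →L[ℂ] E) : phi T 0 = ‖T‖ := by
  unfold phi
  rw [Sh_zero, mul_one]

lemma phi_nonneg (T : E →L[ℂ] E) (j : ℕ) : 0 ≤ phi T j := norm_nonneg _

lemma phi_anti (T : E →L[ℂ] E) : Antitone (phi T) := by
  intro j k hjk
  obtain ⟨d, rfl⟩ := Nat.exists_eq_add_of_le hjk
  unfold phi
  rw [Sh_add, ← mul_assoc]
  calc ‖T * Sh j * Sh d‖ ≤ ‖T * Sh j‖ * ‖Sh d‖ := norm_mul_le _ _
    _ ≤ ‖T * Sh j‖ * 1 := by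
        apply mul_le_mul_of_nonneg_left (norm_Sh_le d) (norm_nonneg _)
    _ = ‖T * Sh j‖ := mul_one _

lemma norm_W_mul (f : ℕ → ℕ) (hf : Function.Injective f) (T : E →L[ℂ] E) :
    ‖W f hf * T‖ = ‖T‖ := by
  apply le_antisymm
  · calc ‖W f hf * T‖ ≤ ‖W f hf‖ * ‖T‖ := norm_mul_le _ _
      _ ≤ 1 * ‖T‖ := mul_le_mul_of_nonneg_right (norm_W_le f hf) (norm_nonneg _)
      _ = ‖T‖ := one_mul _
  · apply ContinuousLinearMap.opNorm_le_bound _ (norm_nonneg _)
    intro x
    rw [← norm_W_apply f hf (T x)]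
    exact (W f hf * T).le_opNorm x

lemma phi_shift (T : E →L[ℂ] E) (f : ℕ → ℕ) (hf : StrictMono f) (j : ℕ) :
    phi T j ≤ phi T (f j) + ‖T * W f hf.injective - W f hf.injective * T‖ := by
  have hg : Function.Injective (fun i => f (i + j) - f j) := by
    intro i k hik
    have h1 : f j ≤ f (i + j) := hf.monotone (by omega)
    have h2 : f j ≤ f (k + j) := hf.monotone (by omega)
    have h3 : f (i + j) = f (k + j) := by
      simp only at hik
      omega
    have := hf.injective h3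
    omega
  have key : W f hf.injective * Sh j = Sh (f j) * W (fun i => f (i + j) - f j) hg := by
    apply ext_e
    intro i
    rw [mul_apply_eq_comp, mul_apply_eq_comp, Sh_e, W_e, W_e, Sh_e]
    congr 1
    have h1 : f j ≤ f (i + j) := hf.monotone (by omega)
    omega
  have h0 : W f hf.injective * (T * Sh j)
      = T * Sh (f j) * W (fun i => f (i + j) - f j) hg
        - (T * W f hf.injective - W f hf.injective * T) * Sh j := by
    rw [mul_assoc T, ← key]
    simp only [sub_mul, mul_assoc]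
    abel
  unfold phi
  rw [← norm_W_mul f hf.injective (T * Sh j), h0]
  calc _ ≤ ‖T * Sh (f j) * W (fun i => f (i + j) - f j) hg‖
        + ‖(T * W f hf.injective - W f hf.injective * T) * Sh j‖ := norm_sub_le _ _
    _ ≤ ‖T * Sh (f j)‖ * 1 + ‖T * W f hf.injective - W f hf.injective * T‖ * 1 := by
        apply add_le_add
        · exact (norm_mul_le _ _).trans
            (mul_le_mul_of_nonneg_left (norm_W_le _ _) (norm_nonneg _))
        · exact (norm_mul_le _ _).trans
            (mul_le_mul_of_nonneg_left (norm_Sh_le _) (norm_nonneg _))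
    _ = _ := by ring

lemma comm_sub_smul (a S : E →L[ℂ] E) (c : ℂ) :
    (a - c • (1 : E →L[ℂ] E)) * S - S * (a - c • (1 : E →L[ℂ] E)) = a * S - S * a := by
  simp only [sub_mul, mul_sub, smul_mul_assoc, mul_smul_comm, one_mul, mul_one]
  abel

lemma norm_le_of_coord (y : E) (C : ℝ) (h : ∀ i, ‖y i‖ ≤ (1 / 2 : ℝ) ^ i * C) : ‖y‖ ≤ 2 * C := by
  have hs : HasSum (fun i : ℕ => (1 / 2 : ℝ) ^ i * C) (2 * C) := by
    have := hasSum_geometric_two.mul_right C
    exact this
  have h2 : ‖∑' i, (y i) • e i‖ ≤ 2 * C := by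
    apply tsum_of_norm_bounded hs
    intro i
    rw [norm_smul, norm_e, mul_one]
    exact h i
  rwa [(hasSum_e y).tsum_eq] at h2

lemma compact_part (K : E →L[ℂ] E) (n : ℕ)
    (h : ∀ l, n ≤ l → ∀ i, ‖(K (e l)) i‖ ≤ (1 / 2 : ℝ) ^ i * (1 / 2 : ℝ) ^ l) (j : ℕ)
    (hj : n ≤ j) : ‖K * Sh j‖ ≤ 4 * (1 / 2 : ℝ) ^ j := by
  have h1 : ∀ l, n ≤ l → ‖K (e l)‖ ≤ 2 * (1 / 2 : ℝ) ^ l := fun l hl =>
    norm_le_of_coord _ _ (h l hl)
  apply ContinuousLinearMap.opNorm_le_bound _ (by positivity)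
  intro x
  have hx := (hasSum_e x).mapL (K * Sh j)
  simp only [map_smul, mul_apply_eq_comp, Sh_e] at hx
  have hs : HasSum (fun i : ℕ => (1 / 2 : ℝ) ^ i * (2 * (1 / 2 : ℝ) ^ j * ‖x‖))
      (2 * (2 * (1 / 2 : ℝ) ^ j * ‖x‖)) :=
    hasSum_geometric_two.mul_right _
  have h2 : ‖∑' i, (x i) • K (e (i + j))‖ ≤ 2 * (2 * (1 / 2 : ℝ) ^ j * ‖x‖) := by
    apply tsum_of_norm_bounded hs
    intro i
    rw [norm_smul]
    have h3 := h1 (i + j) (by omega)
    have h4 : ‖x i‖ ≤ ‖x‖ := lp.norm_apply_le_norm (by norm_num) x i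
    calc ‖x i‖ * ‖K (e (i + j))‖ ≤ ‖x‖ * (2 * (1 / 2 : ℝ) ^ (i + j)) :=
          mul_le_mul h4 h3 (norm_nonneg _) (norm_nonneg _)
      _ = _ := by rw [pow_add]; ring
  rw [hx.tsum_eq] at h2
  rw [mul_apply_eq_comp]
  calc _ ≤ _ := h2
    _ = _ := by ring

lemma coord_tendsto (x : E) : Tendsto (fun i => x i) cofinite (𝓝 0) := by
  have h : Summable (fun i => ‖x i‖ ^ (2 : ENNReal).toReal) :=
    (lp.memℓp x).summable (by norm_num)
  have h1 := h.tendsto_cofinite_zero
  rw [tendsto_zero_iff_norm_tendsto_zero]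
  have h2 : Tendsto (fun i => (‖x i‖ ^ (2 : ENNReal).toReal) ^ (1 / 2 : ℝ)) cofinite
      (𝓝 ((0 : ℝ) ^ (1 / 2 : ℝ))) := h1.rpow_const (Or.inr (by norm_num))
  rw [Real.zero_rpow (by norm_num)] at h2
  refine h2.congr (fun i => ?_)
  rw [← Real.rpow_mul (norm_nonneg _)]
  norm_num

lemma row_tendsto (T : E →L[ℂ] E) (j : ℕ) :
    Tendsto (fun i => (T (e i)) j) cofinite (𝓝 0) := by
  have h := coord_tendsto (ContinuousLinearMap.adjoint T (e j))
  have h2 : ∀ i, (T (e i)) j = star ((ContinuousLinearMap.adjoint T (e j)) i) := by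
    intro i
    rw [← inner_e, ← ContinuousLinearMap.adjoint_inner_left, ← inner_conj_symm, inner_e]
    rfl
  simp only [h2]
  have := h.star
  simpa using this

lemma norm_entry_le (T : E →L[ℂ] E) (i j : ℕ) : ‖(T (e i)) j‖ ≤ ‖T‖ := by
  calc ‖(T (e i)) j‖ ≤ ‖T (e i)‖ := lp.norm_apply_le_norm (by norm_num) _ j
    _ ≤ ‖T‖ * ‖e i‖ := T.le_opNorm _
    _ = ‖T‖ := by rw [norm_e, mul_one]

lemma exists_diag_lim (U : Ultrafilter ℕ) (T : E →L[ℂ] E) :
    ∃ c : ℂ, ‖c‖ ≤ ‖T‖ ∧ Tendsto (fun j => (T (e j)) j) (U : Filter ℕ) (𝓝 c) := by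
  have hc : IsCompact (Metric.closedBall (0 : ℂ) ‖T‖) := isCompact_closedBall _ _
  have h1 : (U.map (fun j => (T (e j)) j) : Filter ℂ) ≤ 𝓟 (Metric.closedBall (0 : ℂ) ‖T‖) := by
    rw [le_principal_iff]
    apply Filter.mem_map.mpr
    apply Filter.univ_mem'
    intro j
    simp only [Set.mem_preimage, mem_closedBall_zero_iff]
    exact norm_entry_le T j j
  obtain ⟨c, hc1, hc2⟩ := hc.ultrafilter_le_nhds _ h1
  refine ⟨c, ?_, hc2⟩
  simpa using hc1

/-- The relation used to choose the sparse sequence. -/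
def Rel (a : ℕ → (E →L[ℂ] E)) (p q : ℕ × ℕ) : Prop :=
  p.1 < q.1 ∧ p.2 < q.2 ∧ ∀ n ≤ q.1,
    ‖(a n (e q.2)) p.2‖ ≤ (1 / 2 : ℝ) ^ (2 * q.1) ∧ ‖(a n (e p.2)) q.2‖ ≤ (1 / 2 : ℝ) ^ (2 * q.1)

/-- The diagonal condition. -/
def Dg (a : ℕ → (E →L[ℂ] E)) (c : ℕ → ℂ) (p : ℕ × ℕ) : Prop :=
  ∀ n ≤ p.1, ‖(a n (e p.2)) p.2 - c n‖ ≤ (1 / 2 : ℝ) ^ (2 * p.1)

lemma exists_next (U : Ultrafilter ℕ) (hU : (U : Filter ℕ) ≤ cofinite)
    (a : ℕ → (E →L[ℂ] E)) (c : ℕ → ℂ)
    (hc : ∀ n, Tendsto (fun j => (a n (e j)) j) (U : Filter ℕ) (𝓝 (c n)))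
    (s : Finset (ℕ × ℕ)) : ∃ q : ℕ × ℕ, Dg a c q ∧ ∀ p ∈ s, Rel a p q := by
  obtain ⟨l, hl⟩ : ∃ l : ℕ, ∀ p ∈ s, p.1 < l := by
    refine ⟨s.sup (fun p => p.1) + 1, fun p hp => ?_⟩
    exact Nat.lt_succ_of_le (Finset.le_sup (f := fun p : ℕ × ℕ => p.1) hp)
  have hpos : (0 : ℝ) < (1 / 2 : ℝ) ^ (2 * l) := by positivity
  have e1 : ∀ᶠ j in (U : Filter ℕ), ∀ n ∈ Finset.range (l + 1),
      ‖(a n (e j)) j - c n‖ ≤ (1 / 2 : ℝ) ^ (2 * l) := by
    rw [Filter.eventually_all_finset]
    intro n _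
    have h1 := (tendsto_iff_norm_sub_tendsto_zero.mp (hc n))
    exact (h1.eventually (eventually_le_nhds hpos))
  have e2 : ∀ᶠ j in (U : Filter ℕ), ∀ p ∈ s, p.2 < j ∧ ∀ n ∈ Finset.range (l + 1),
      ‖(a n (e j)) p.2‖ ≤ (1 / 2 : ℝ) ^ (2 * l) ∧ ‖(a n (e p.2)) j‖ ≤ (1 / 2 : ℝ) ^ (2 * l) := by
    rw [Filter.eventually_all_finset]
    intro p _
    apply Filter.Eventually.and
    · apply hU
      have : {j : ℕ | ¬ p.2 < j}.Finite := by
        apply (Set.finite_le_nat p.2).subset
        intro j hj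
        simp only [Set.mem_ofPred_eq, not_lt] at hj ⊢
        exact hj
      exact this
    · rw [Filter.eventually_all_finset]
      intro n _
      apply Filter.Eventually.and
      · apply hU
        have h1 := (tendsto_zero_iff_norm_tendsto_zero.mp (row_tendsto (a n) p.2))
        exact (h1.eventually (eventually_le_nhds hpos))
      · apply hU
        have h1 := (tendsto_zero_iff_norm_tendsto_zero.mp (coord_tendsto (a n (e p.2))))
        exact (h1.eventually (eventually_le_nhds hpos))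
  obtain ⟨j, hj1, hj2⟩ := (e1.and e2).exists
  refine ⟨(l, j), ?_, ?_⟩
  · intro n hn
    exact hj1 n (Finset.mem_range.mpr (Nat.lt_succ_of_le hn))
  · intro p hp
    refine ⟨hl p hp, (hj2 p hp).1, fun n hn => ?_⟩
    exact (hj2 p hp).2 n (Finset.mem_range.mpr (Nat.lt_succ_of_le hn))

lemma exists_sparse (U : Ultrafilter ℕ) (hU : (U : Filter ℕ) ≤ cofinite)
    (a : ℕ → (E →L[ℂ] E)) (c : ℕ → ℂ)
    (hc : ∀ n, Tendsto (fun j => (a n (e j)) j) (U : Filter ℕ) (𝓝 (c n))) :
    ∃ f : ℕ → ℕ, StrictMono f ∧ ∀ n l, n ≤ l → ∀ i,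
      ‖(a n (e (f l))) (f i) - (if i = l then c n else 0)‖ ≤ (1 / 2 : ℝ) ^ i * (1 / 2 : ℝ) ^ l := by
  obtain ⟨F, hF1, hF2⟩ := exists_seq_of_forall_finset_exists (Dg a c) (Rel a)
    (fun s _ => exists_next U hU a c hc s)
  have hF3 : StrictMono (fun m => (F m).1) := fun m n hmn => (hF2 m n hmn).1
  have hle : ∀ m, m ≤ (F m).1 := fun m => hF3.le_apply
  refine ⟨fun m => (F m).2, fun m n hmn => (hF2 m n hmn).2.1, ?_⟩
  intro n l hnl i
  rcases lt_trichotomy i l with h | h | h
  · rw [if_neg (by omega), sub_zero]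
    have h1 := ((hF2 i l h).2.2 n (hnl.trans (hle l))).1
    refine h1.trans ?_
    rw [← pow_add]
    apply pow_le_pow_of_le_one (by norm_num) (by norm_num)
    have := hle l
    omega
  · subst h
    rw [if_pos rfl]
    have h1 := hF1 i n (hnl.trans (hle i))
    refine h1.trans ?_
    rw [← pow_add]
    apply pow_le_pow_of_le_one (by norm_num) (by norm_num)
    have := hle i
    omega
  · rw [if_neg (by omega), sub_zero]
    have h1 := ((hF2 l i h).2.2 n ((hnl.trans h.le).trans (hle i))).2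
    refine h1.trans ?_
    rw [← pow_add]
    apply pow_le_pow_of_le_one (by norm_num) (by norm_num)
    have := hle i
    omega

/-- There is one isometry controlling the tails of all the operators `a n`. -/
lemma exists_control (U : Ultrafilter ℕ) (hU : (U : Filter ℕ) ≤ cofinite)
    (a : ℕ → (E →L[ℂ] E)) (c : ℕ → ℂ)
    (hc : ∀ n, Tendsto (fun j => (a n (e j)) j) (U : Filter ℕ) (𝓝 (c n))) :
    ∃ f : ℕ → ℕ, ∃ hf : StrictMono f, ∀ n j, n ≤ j →
      phi (a n - c n • (1 : E →L[ℂ] E)) j ≤ 4 * (1 / 2 : ℝ) ^ j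
        + ‖a n * W f hf.injective - W f hf.injective * a n‖ := by
  obtain ⟨f, hf, h⟩ := exists_sparse U hU a c hc
  refine ⟨f, hf, ?_⟩
  intro n j hnj
  set T := a n - c n • (1 : E →L[ℂ] E) with hT
  set A := ContinuousLinearMap.adjoint (W f hf.injective) with hA
  have hAn : ‖A‖ ≤ 1 := by
    rw [hA, LinearIsometryEquiv.norm_map]
    exact norm_W_le _ _
  have hK : ∀ l, n ≤ l → ∀ i, ‖((A * T * W f hf.injective) (e l)) i‖
      ≤ (1 / 2 : ℝ) ^ i * (1 / 2 : ℝ) ^ l := by
    intro l hl i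
    rw [mul_apply_eq_comp, mul_apply_eq_comp, W_e, hA, adj_W_apply, hT]
    have h1 := h n l hl i
    have h2 : ((a n - c n • (1 : E →L[ℂ] E)) (e (f l))) (f i)
        = (a n (e (f l))) (f i) - (if i = l then c n else 0) := by
      rw [sub_apply, smul_apply, one_apply_eq_self]
      rw [lp.coeFn_sub, Pi.sub_apply, lp.coeFn_smul, Pi.smul_apply, e_apply]
      by_cases hil : i = l
      · subst hil; simp
      · have : f i ≠ f l := fun h' => hil (hf.injective h')
        simp [hil, this]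
    rw [h2]
    exact h1
  have hK2 := compact_part _ n hK j hnj
  have h3 : T * Sh j = A * T * W f hf.injective * Sh j
      - A * ((T * W f hf.injective - W f hf.injective * T) * Sh j) := by
    have h4 : A * (W f hf.injective * T) = T := by
      rw [← mul_assoc, hA, adj_W_W, one_mul]
    simp only [sub_mul, mul_sub]
    rw [← mul_assoc A (W f hf.injective * T) (Sh j), h4]
    simp only [mul_assoc]
    abel
  unfold phi
  rw [h3, ← comm_sub_smul (a n) (W f hf.injective) (c n), ← hT]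
  calc _ ≤ ‖A * T * W f hf.injective * Sh j‖
        + ‖A * ((T * W f hf.injective - W f hf.injective * T) * Sh j)‖ := norm_sub_le _ _
    _ ≤ 4 * (1 / 2 : ℝ) ^ j + ‖T * W f hf.injective - W f hf.injective * T‖ := by
        apply add_le_add hK2
        calc _ ≤ ‖A‖ * (‖T * W f hf.injective - W f hf.injective * T‖ * ‖Sh j‖) :=
              (norm_mul_le _ _).trans
                (mul_le_mul_of_nonneg_left (norm_mul_le _ _) (norm_nonneg _))
          _ ≤ 1 * (‖T * W f hf.injective - W f hf.injective * T‖ * 1) := by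
              apply mul_le_mul hAn _ (by positivity) (by norm_num)
              exact mul_le_mul_of_nonneg_left (norm_Sh_le j) (norm_nonneg _)
          _ = _ := by ring

/-- Every nonprincipal ultrafilter U on ℕ such that some bounded operator sequence on ℓ² asymptotically commutes along U with all operators, yet is not U-asymptotically scalar, is flat. -/
theorem flat_of_nontrivial :
    ∀ U : Ultrafilter ℕ, (U : Filter ℕ) ≤ Filter.cofinite →
      (∃ a : ℕ → (lp (fun _ : ℕ => ℂ) 2 →L[ℂ] lp (fun _ : ℕ => ℂ) 2),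
          (∃ C : ℝ, ∀ n, ‖a n‖ ≤ C) ∧
          (∀ b : lp (fun _ : ℕ => ℂ) 2 →L[ℂ] lp (fun _ : ℕ => ℂ) 2,
              Tendsto (fun n => ‖a n * b - b * a n‖) (U : Filter ℕ) (𝓝 0)) ∧
          (∀ c : ℂ, ¬ Tendsto (fun n => ‖a n - c • (1 : lp (fun _ : ℕ => ℂ) 2 →L[ℂ] lp (fun _ : ℕ => ℂ) 2)‖)
              (U : Filter ℕ) (𝓝 0))) →
      ∃ h : ℕ → ℕ → ℝ,
        (∀ n, Antitone (h n)) ∧
        (∀ n j, 0 ≤ h n j ∧ h n j ≤ 1) ∧
        (∀ n, h n 0 = 1) ∧
        (∀ n, Tendsto (h n) atTop (𝓝 0)) ∧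
        (∀ f : ℕ → ℕ, StrictMono f →
          Tendsto (fun n => ⨆ j : ℕ, |h n j - h n (f j)|) (U : Filter ℕ) (𝓝 0)) := by
  intro U hU ⟨a, ⟨C, hC⟩, hcomm, hns⟩
  -- the diagonal limits
  choose c hcn hc using fun n => exists_diag_lim U (a n)
  obtain ⟨f0, hf0, hctrl⟩ := exists_control U hU a c hc
  set T : ℕ → (E →L[ℂ] E) := fun n => a n - c n • (1 : E →L[ℂ] E) with hT
  set L : ℕ → ℝ := fun n => ⨅ j, phi (T n) j with hL
  have hbdd : ∀ n, BddBelow (Set.range (phi (T n))) := fun n =>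
    ⟨0, by rintro _ ⟨j, rfl⟩; exact phi_nonneg _ _⟩
  have hLlim : ∀ n, Tendsto (phi (T n)) atTop (𝓝 (L n)) := fun n =>
    tendsto_atTop_ciInf (phi_anti (T n)) (hbdd n)
  have hLle : ∀ n j, L n ≤ phi (T n) j := fun n j => ciInf_le (hbdd n) j
  have hL0 : ∀ n, 0 ≤ L n := fun n => le_ciInf (fun j => phi_nonneg _ _)
  -- `L n` is bounded by a commutator norm
  have hLcomm : ∀ n, L n ≤ ‖a n * W f0 hf0.injective - W f0 hf0.injective * a n‖ := by
    intro n
    have h1 : Tendsto (fun j : ℕ => 4 * (1 / 2 : ℝ) ^ j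
        + ‖a n * W f0 hf0.injective - W f0 hf0.injective * a n‖) atTop
        (𝓝 (4 * 0 + ‖a n * W f0 hf0.injective - W f0 hf0.injective * a n‖)) :=
      ((tendsto_pow_atTop_nhds_zero_of_lt_one (by norm_num) (by norm_num)).const_mul 4).add_const _
    rw [mul_zero, zero_add] at h1
    apply le_of_tendsto_of_tendsto (hLlim n) h1
    filter_upwards [eventually_ge_atTop n] with j hj
    exact hctrl n j hj
  -- the norms `‖T n‖` stay away from zero
  obtain ⟨ε, hε, hεU⟩ : ∃ ε : ℝ, 0 < ε ∧ ∀ᶠ n in (U : Filter ℕ), ε ≤ ‖T n‖ := by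
    by_contra hcon
    push Not at hcon
    have hsmall : ∀ ε : ℝ, 0 < ε → ∀ᶠ n in (U : Filter ℕ), ‖T n‖ < ε := by
      intro ε hε
      exact hcon ε hε
    have hTlim : Tendsto (fun n => ‖T n‖) (U : Filter ℕ) (𝓝 0) := by
      rw [Metric.tendsto_nhds]
      intro ε hε
      filter_upwards [hsmall ε hε] with n hn
      simpa [Real.dist_eq] using hn
    have hcpt : IsCompact (Metric.closedBall (0 : ℂ) C) := isCompact_closedBall _ _
    have h1 : (U.map c : Filter ℂ) ≤ 𝓟 (Metric.closedBall (0 : ℂ) C) := by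
      rw [le_principal_iff]
      apply Filter.mem_map.mpr
      apply Filter.univ_mem'
      intro n
      simp only [Set.mem_preimage, mem_closedBall_zero_iff]
      exact (hcn n).trans (hC n)
    obtain ⟨c0, _, hc0⟩ := hcpt.ultrafilter_le_nhds _ h1
    have hc0' : Tendsto c (U : Filter ℕ) (𝓝 c0) := hc0
    apply hns c0
    have h2 : Tendsto (fun n => ‖T n‖ + ‖c n - c0‖) (U : Filter ℕ) (𝓝 (0 + 0)) :=
      hTlim.add (tendsto_iff_norm_sub_tendsto_zero.mp hc0')
    rw [add_zero] at h2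
    refine squeeze_zero (fun n => norm_nonneg _) (fun n => ?_) h2
    have h3 : a n - c0 • (1 : E →L[ℂ] E) = T n + (c n - c0) • (1 : E →L[ℂ] E) := by
      show a n - c0 • (1 : E →L[ℂ] E) = (a n - c n • (1 : E →L[ℂ] E)) + (c n - c0) • (1 : E →L[ℂ] E)
      rw [sub_smul]
      abel
    calc ‖a n - c0 • (1 : E →L[ℂ] E)‖ = ‖T n + (c n - c0) • (1 : E →L[ℂ] E)‖ := by rw [h3]
      _ ≤ ‖T n‖ + ‖(c n - c0) • (1 : E →L[ℂ] E)‖ := norm_add_le _ _
      _ ≤ ‖T n‖ + ‖c n - c0‖ := by
          gcongr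
          rw [norm_smul]
          calc ‖c n - c0‖ * ‖(1 : E →L[ℂ] E)‖ ≤ ‖c n - c0‖ * 1 := by
                apply mul_le_mul_of_nonneg_left _ (norm_nonneg _)
                exact ContinuousLinearMap.norm_id_le
            _ = _ := mul_one _
  set D : ℕ → ℝ := fun n => phi (T n) 0 - L n with hD
  have hDU : ∀ᶠ n in (U : Filter ℕ), ε / 2 ≤ D n := by
    have h1 := (hcomm (W f0 hf0.injective)).eventually (gt_mem_nhds (half_pos hε))
    filter_upwards [h1, hεU] with n hn1 hn2
    have h2 := hLcomm n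
    rw [hD]
    simp only
    rw [phi_zero]
    linarith
  refine ⟨fun n j => if 0 < D n then (phi (T n) j - L n) / D n else (if j = 0 then 1 else 0),
    ?_, ?_, ?_, ?_, ?_⟩
  · intro n i j hij
    by_cases hDn : 0 < D n
    · simp only [hDn, if_true]
      have := phi_anti (T n) hij
      gcongr
    · simp only [hDn, if_false]
      by_cases hj : j = 0
      · have hi : i = 0 := by omega
        simp [hi, hj]
      · by_cases hi : i = 0
        · simp [hi, hj]
        · simp [hi, hj]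
  · intro n j
    by_cases hDn : 0 < D n
    · simp only [hDn, if_true]
      constructor
      · apply div_nonneg _ hDn.le
        have := hLle n j
        linarith
      · rw [div_le_one hDn]
        have := phi_anti (T n) (Nat.zero_le j)
        rw [hD]
        simp only
        linarith
    · simp only [hDn, if_false]
      by_cases hj : j = 0
      · simp [hj]
      · simp [hj]
  · intro n
    by_cases hDn : 0 < D n
    · simp only [hDn, if_true]
      exact div_self hDn.ne'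
    · simp [hDn]
  · intro n
    by_cases hDn : 0 < D n
    · simp only [hDn, if_true]
      have h1 := ((hLlim n).sub_const (L n)).div_const (D n)
      simpa using h1
    · simp only [hDn, if_false]
      apply tendsto_const_nhds.congr'
      filter_upwards [eventually_gt_atTop 0] with j hj
      simp [hj.ne']
  · intro f hf
    have h1 : Tendsto (fun n => (2 / ε) * ‖a n * W f hf.injective - W f hf.injective * a n‖)
        (U : Filter ℕ) (𝓝 ((2 / ε) * 0)) := (hcomm (W f hf.injective)).const_mul _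
    rw [mul_zero] at h1
    refine squeeze_zero' (Eventually.of_forall fun n => ?_) ?_ h1
    · exact Real.iSup_nonneg (fun j => abs_nonneg _)
    · filter_upwards [hDU] with n hn
      have hDn : 0 < D n := lt_of_lt_of_le (half_pos hε) hn
      apply Real.iSup_le _ (by positivity)
      intro j
      simp only [hDn, if_true]
      have h2 := phi_shift (T n) f hf j
      rw [comm_sub_smul] at h2
      have h3 := phi_anti (T n) (hf.le_apply (x := j))
      rw [← sub_div, sub_sub_sub_cancel_right, abs_div, abs_of_pos hDn,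
        abs_of_nonneg (by linarith), div_le_iff₀ hDn]
      have h4 : (1 : ℝ) ≤ 2 / ε * D n := by
        have : 2 / ε * (ε / 2) = 1 := by field_simp
        calc (1 : ℝ) = 2 / ε * (ε / 2) := this.symm
          _ ≤ 2 / ε * D n := by gcongr
      have h5 : 0 ≤ ‖a n * W f hf.injective - W f hf.injective * a n‖ := norm_nonneg _
      nlinarith

/-- `U` is a P-point: for every partition of the naturals, coded by a labelling `g : ℕ → ℕ`, into
pieces none of which lies in `U`, some member of `U` meets each piece in a finite set. -/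
def IsPPoint (U : Ultrafilter ℕ) : Prop :=
  ∀ g : ℕ → ℕ, (∀ k, {n | g n = k} ∉ U) → ∃ A ∈ U, ∀ k, (A ∩ {n | g n = k}).Finite

/-- The relative commutant of `B(H)` in its norm ultrapower along `U` is trivial, spelled out on
representing sequences. -/
def TrivialCommutant (H : Type*) [NormedAddCommGroup H] [InnerProductSpace ℂ H]
    (U : Ultrafilter ℕ) : Prop :=
  ∀ a : ℕ → (H →L[ℂ] H), (∃ C : ℝ, ∀ n, ‖a n‖ ≤ C) →
    (∀ b : H →L[ℂ] H, Tendsto (fun n => ‖a n * b - b * a n‖) (U : Filter ℕ) (𝓝 0)) →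
    ∃ c : ℂ, Tendsto (fun n => ‖a n - c • (1 : H →L[ℂ] H)‖) (U : Filter ℕ) (𝓝 0)

/-- P-points are not flat. -/
lemma not_flat_of_ppoint (U : Ultrafilter ℕ) (hP : IsPPoint U) (h : ℕ → ℕ → ℝ)
    (hanti : ∀ n, Antitone (h n)) (h01 : ∀ n j, 0 ≤ h n j ∧ h n j ≤ 1)
    (h0 : ∀ n, h n 0 = 1) (hlim : ∀ n, Tendsto (h n) atTop (𝓝 0))
    (hflat : ∀ f : ℕ → ℕ, StrictMono f →
      Tendsto (fun n => ⨆ j : ℕ, |h n j - h n (f j)|) (U : Filter ℕ) (𝓝 0)) : False := by
  classical
  have hbdd : ∀ (f : ℕ → ℕ) n, BddAbove (Set.range fun j : ℕ => |h n j - h n (f j)|) := by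
    intro f n
    refine ⟨1, ?_⟩
    rintro _ ⟨j, rfl⟩
    have h1 := h01 n j
    have h2 := h01 n (f j)
    simp only
    rw [abs_le]
    constructor <;> linarith
  -- the first time `h n` is at most 1/2
  have ex1 : ∀ n, ∃ j, h n j ≤ 1 / 2 := fun n =>
    ((hlim n).eventually (eventually_le_nhds (by norm_num : (0 : ℝ) < 1 / 2))).exists
  have ex2 : ∀ n, ∃ j, h n j ≤ 1 / 4 := fun n =>
    ((hlim n).eventually (eventually_le_nhds (by norm_num : (0 : ℝ) < 1 / 4))).exists
  set g : ℕ → ℕ := fun n => Nat.find (ex1 n) with hg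
  have hgle : ∀ n, h n (g n) ≤ 1 / 2 := fun n => Nat.find_spec (ex1 n)
  have hgmin : ∀ n j, j < g n → 1 / 2 < h n j := fun n j hj => by
    have := Nat.find_min (ex1 n) hj
    linarith
  have hgpos : ∀ n, 0 < g n := by
    intro n
    rcases Nat.eq_zero_or_pos (g n) with h1 | h1
    · have h2 := hgle n
      rw [h1, h0 n] at h2
      norm_num at h2
    · exact h1
  choose q hq using ex2
  -- no fiber of `g` is in `U`
  have hfib : ∀ k, {n | g n = k} ∉ U := by
    intro k hk
    have hmono : StrictMono (fun i : ℕ => i + k) := fun a b hab => Nat.add_lt_add_right hab k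
    have h1 := (hflat (fun i => i + k) hmono).eventually
      (gt_mem_nhds (by norm_num : (0 : ℝ) < 1 / 2))
    have h2 : ∀ᶠ n in (U : Filter ℕ), g n = k := hk
    obtain ⟨n, hn1, hn2⟩ := (h1.and h2).exists
    have h3 : |h n 0 - h n (0 + k)| ≤ ⨆ j : ℕ, |h n j - h n (j + k)| :=
      le_ciSup (hbdd (fun i => i + k) n) 0
    have h4 : h n k ≤ 1 / 2 := by rw [← hn2]; exact hgle n
    rw [zero_add, h0 n] at h3
    have h5 : (1 : ℝ) / 2 ≤ |1 - h n k| := by
      rw [abs_of_nonneg] <;> linarith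
    linarith
  obtain ⟨A, hA, hfin⟩ := hP g hfib
  -- a fast function catching the drop of `h n` for all `n` in `A`
  set F : ℕ → ℕ := fun i => (hfin (i + 1)).toFinset.sup q with hF
  set f : ℕ → ℕ := fun i => ∑ k ∈ Finset.range (i + 1), (F k + 1) with hf
  have hfmono : StrictMono f := by
    apply strictMono_nat_of_lt_succ
    intro i
    rw [hf]
    simp only
    rw [Finset.sum_range_succ _ (i + 1)]
    omega
  have hFf : ∀ i, F i ≤ f i := by
    intro i
    rw [hf]
    simp only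
    rw [Finset.sum_range_succ]
    omega
  have h1 := (hflat f hfmono).eventually (gt_mem_nhds (by norm_num : (0 : ℝ) < 1 / 4))
  have h2 : ∀ᶠ n in (U : Filter ℕ), n ∈ A := hA
  obtain ⟨n, hn1, hn2⟩ := (h1.and h2).exists
  obtain ⟨i, hi⟩ : ∃ i, g n = i + 1 := ⟨g n - 1, by have := hgpos n; omega⟩
  have h3 : |h n i - h n (f i)| ≤ ⨆ j : ℕ, |h n j - h n (f j)| := le_ciSup (hbdd f n) i
  have h4 : 1 / 2 < h n i := hgmin n i (by omega)
  have h5 : q n ≤ F i := by
    apply Finset.le_sup (f := q)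
    rw [Set.Finite.mem_toFinset]
    exact ⟨hn2, hi⟩
  have h6 : h n (f i) ≤ 1 / 4 := (hanti n (h5.trans (hFf i))).trans (hq n)
  have h7 : (1 : ℝ) / 4 ≤ |h n i - h n (f i)| := by
    rw [abs_of_nonneg] <;> linarith
  linarith

/-- The theorem for the model space `l2`. -/
lemma trivial_l2 (U : Ultrafilter ℕ) (hU : (U : Filter ℕ) ≤ Filter.cofinite) (hP : IsPPoint U) :
    TrivialCommutant E U := by
  intro a hC hcomm
  by_contra hcon
  push Not at hcon
  obtain ⟨h, hanti, h01, h0, hlim, hflat⟩ := flat_of_nontrivial U hU ⟨a, hC, hcomm, hcon⟩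
  exact not_flat_of_ppoint U hP h hanti h01 h0 hlim hflat

/-- A separable infinite-dimensional Hilbert space is isometric to `l2`. -/
lemma exists_iso (H : Type*) [NormedAddCommGroup H] [InnerProductSpace ℂ H] [CompleteSpace H]
    [TopologicalSpace.SeparableSpace H] (hH : ¬ FiniteDimensional ℂ H) :
    Nonempty (H ≃ₗᵢ[ℂ] E) := by
  obtain ⟨w, b, hb⟩ := exists_hilbertBasis ℂ H
  have hcount : Countable w := by
    have h1 : (Set.univ : Set w).PairwiseDisjoint (fun i => Metric.ball (b i) (1 / 2)) := by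
      intro i _ j _ hij
      apply Metric.ball_disjoint_ball
      have h2 : ‖b i - b j‖ ^ 2 = 2 := by
        rw [@norm_sub_sq ℂ, b.orthonormal.1 i, b.orthonormal.1 j, b.orthonormal.2 hij]
        norm_num
      rw [dist_eq_norm]
      by_contra hlt
      push Not at hlt
      have h3 : (0 : ℝ) ≤ ‖b i - b j‖ := norm_nonneg _
      nlinarith
    have h2 := h1.countable_of_isOpen (fun i _ => Metric.isOpen_ball)
      (fun i _ => ⟨b i, Metric.mem_ball_self (by norm_num)⟩)
    exact Set.countable_univ_iff.mp h2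
  have hinf : Infinite w := by
    by_contra hfin
    rw [not_infinite_iff_finite] at hfin
    have := Fintype.ofFinite w
    exact hH (Module.Finite.of_basis b.toOrthonormalBasis.toBasis)
  obtain ⟨hd⟩ := nonempty_denumerable w
  have eq := (Denumerable.eqv w).symm
  have hv : Orthonormal ℂ (fun i : ℕ => b (eq i)) := b.orthonormal.comp _ eq.injective
  have hr : Set.range (fun i : ℕ => b (eq i)) = Set.range b := by
    have := eq.surjective.range_comp (⇑b)
    exact this
  have hsp : ⊤ ≤ (Submodule.span ℂ (Set.range (fun i : ℕ => b (eq i)))).topologicalClosure := by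
    rw [hr]
    exact b.dense_span.ge
  exact ⟨(HilbertBasis.mk hv hsp).repr⟩

/-- Let `H` be a separable infinite-dimensional complex Hilbert space. If the free ultrafilter `U`
is a P-point then the relative commutant of `B(H)` in its ultrapower along `U` is trivial. -/
theorem result (H : Type*) [NormedAddCommGroup H] [InnerProductSpace ℂ H] [CompleteSpace H]
    [TopologicalSpace.SeparableSpace H] (hH : ¬ FiniteDimensional ℂ H)
    (U : Ultrafilter ℕ) (hU : (U : Filter ℕ) ≤ Filter.cofinite) (hP : IsPPoint U) :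
    TrivialCommutant H U := by
  obtain ⟨R⟩ := exists_iso H hH
  intro a hC hcomm
  have hn : ∀ x : H →L[ℂ] H, ‖R.conjStarAlgEquiv x‖ = ‖x‖ := fun x =>
    NonUnitalStarAlgHom.norm_map R.conjStarAlgEquiv R.conjStarAlgEquiv.injective x
  obtain ⟨C, hC⟩ := hC
  obtain ⟨c, hc⟩ := trivial_l2 U hU hP (fun n => R.conjStarAlgEquiv (a n))
    ⟨C, fun n => by rw [hn]; exact hC n⟩
    (by
      intro b
      obtain ⟨b', rfl⟩ : ∃ b', R.conjStarAlgEquiv b' = b := EquivLike.surjective R.conjStarAlgEquiv b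
      refine (hcomm b').congr (fun n => ?_)
      rw [← map_mul, ← map_mul, ← map_sub, hn])
  refine ⟨c, hc.congr (fun n => ?_)⟩
  have h1 : R.conjStarAlgEquiv (a n) - c • (1 : E →L[ℂ] E)
      = R.conjStarAlgEquiv (a n - c • (1 : H →L[ℂ] H)) := by
    rw [map_sub, map_smul, map_one]
  rw [h1, hn]

end Pool.Agent.Results.MP_e69049_lc.PPoint
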